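import Pool.Agent.Lib.MP_d10e50_nt.Hankel

set_option autoImplicit false

namespace Pool.Agent.Lib.MP_d10e50_nt

open Polynomial Finset

/-- Indicator of `2 k + c` being prime. -/
def ind (c k : ℕ) : ℚ := if (2 * k + c).Prime then 1 else 0

/-- Indicator of `k + 2` being prime. -/
def indw (k : ℕ) : ℚ := if (k + 2).Prime then 1 else 0

/-- Odd primes up to `y`. -/
def oddP (y : ℕ) : Finset ℕ := (Icc 3 y).filter Nat.Prime

theorem exists_ND (c : ℕ) (hc : c = 3 ∨ c = 5) (n y : ℕ) (hy : 3 ≤ y)
    (h : n ^ 2 < Nat.totient (∏ q ∈ oddP y, q)) :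
    ∃ t, n < t ∧ t ≤ y * (n + 3) + 5 ∧ ND (ind c) t := by
  by_contra hcon
  push Not at hcon
  obtain ⟨p, hm, hd, hp⟩ := gap_rec (ind c) n _ hcon
  obtain ⟨P, hP, h1, h2⟩ := Nat.exists_prime_lt_and_le_two_mul (2 * (y + n) + c) (by omega)
  have hodd : P % 2 = 1 := hP.eq_two_or_odd.resolve_left (by omega)
  have hyn : 3 * n ≤ y * n := Nat.mul_le_mul_right n hy
  have := window_bound (ind c) p hm _ y hp ((P - c) / 2 - y) (by omega)
    (by rw [mul_add]; omega)
    (by rw [ind, show 2 * (y + ((P - c) / 2 - y)) + c = P by omega, if_pos hP]; simp) (oddP y)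
    (fun q hq => by
      obtain ⟨h3, h4⟩ := mem_filter.1 hq
      obtain ⟨h5, h6⟩ := mem_Icc.1 h3
      have hq2 : q % 2 = 1 := h4.eq_two_or_odd.resolve_left (by omega)
      obtain ⟨u, rfl⟩ : ∃ u, q = 2 * u + 1 := ⟨q / 2, by omega⟩
      refine ⟨h4, (u * (2 * y + c)) % (2 * u + 1), Nat.mod_lt _ (by omega), fun t ht => ⟨?_, ?_⟩⟩
      · have h7 : (u * (2 * y + c)) % (2 * u + 1) < 2 * u + 1 := Nat.mod_lt _ (by omega)
        have h8 : (2 * u + 1) * (t + 1) ≤ y * n := Nat.mul_le_mul h6 (by omega)
        rw [mul_add y]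
        rw [mul_add, mul_one] at h8
        omega
      · rw [ind, if_neg]
        intro h7
        have h8 : 2 * u + 1 ∣ 2 * (y + ((u * (2 * y + c)) % (2 * u + 1) + (2 * u + 1) * t)) + c := by
          have h9 := Nat.mod_add_div (u * (2 * y + c)) (2 * u + 1)
          set r := (u * (2 * y + c)) % (2 * u + 1)
          set d := (u * (2 * y + c)) / (2 * u + 1)
          have h10 : 2 * (y + (r + (2 * u + 1) * t)) + c + (2 * u + 1) * (2 * d) =
              (2 * u + 1) * (2 * y + c + 2 * t) := by nlinarith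
          exact (Nat.dvd_add_left (Dvd.intro _ rfl)).1 (h10 ▸ Dvd.intro _ rfl)
        have := (Nat.prime_dvd_prime_iff_eq h4 h7).1 h8
        omega)
  have h3 : p.natDegree ^ 2 ≤ n ^ 2 := Nat.pow_le_pow_left hd 2
  omega

theorem primorial_le (y : ℕ) (hy : 2 ≤ y) :
    primorial y ≤ y * Nat.totient (∏ q ∈ oddP y, q) := by
  induction y, hy using Nat.le_induction with
  | base => decide
  | succ y hy ih =>
    have e1 : oddP (y + 1) = if (y + 1).Prime then insert (y + 1) (oddP y) else oddP y := by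
      rw [oddP, ← insert_Icc_right_eq_Icc_add_one (by omega), filter_insert]
      rfl
    have e2 : primorial (y + 1) = if (y + 1).Prime then (y + 1) * primorial y else primorial y := by
      rw [primorial, range_add_one, filter_insert]
      split_ifs
      · rw [prod_insert (by simp)]; rfl
      · rfl
    rw [e1, e2]
    split_ifs with hp
    · rw [prod_insert (by simp [oddP]), Nat.totient_mul, Nat.totient_prime hp]
      · exact Nat.mul_le_mul_left _ ih
      · refine Nat.Coprime.prod_right fun q hq => ?_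
        obtain ⟨h3, h4⟩ := mem_filter.1 hq
        exact (Nat.coprime_primes hp h4).2 (by have := mem_Icc.1 h3; omega)
    · exact ih.trans (Nat.mul_le_mul_right _ (by omega))

theorem sum_two (f : ℕ → ℚ) (m : ℕ) :
    ∑ j ∈ range (2 * m), f j = ∑ a ∈ range m, (f (2 * a) + f (2 * a + 1)) := by
  induction m with
  | zero => simp
  | succ m ih => rw [mul_add, mul_one, sum_range_succ, sum_range_succ, ih, sum_range_succ, add_assoc]

theorem indw_even (k : ℕ) (hk : k % 2 = 0) (h0 : k ≠ 0) : indw k = 0 := by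
  rw [indw, if_neg]
  intro h
  have := h.eq_two_or_odd
  omega

theorem ND_even {m : ℕ} (h : ND (ind 3) m) : ND indw (2 * m) := by
  intro x hx
  have e : ∀ a b : ℕ, ∀ k, k = 2 * (a + b) + 1 → indw k = ind 3 (a + b) := by
    rintro a b _ rfl; rfl
  have h1 := h (fun a => x (2 * a)) fun b hb => by
    rw [← hx (2 * b + 1) (by omega), sum_two]
    refine sum_congr rfl fun a _ => ?_
    rw [indw_even (2 * b + 1 + (2 * a + 1)) (by omega) (by omega), e b a _ (by omega)]
    simp
  have h2 := h (fun a => x (2 * a + 1)) fun b hb => by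
    rw [← hx (2 * b) (by omega), sum_two]
    refine sum_congr rfl fun a ha => ?_
    rw [h1 a (mem_range.1 ha), e b a (2 * b + (2 * a + 1)) (by omega)]
    simp
  intro j hj
  obtain ⟨a, rfl | rfl⟩ := Nat.even_or_odd' j
  · exact h1 a (by omega)
  · exact h2 a (by omega)

theorem ND_odd {m : ℕ} (h : ND (ind 5) m) : ND indw (2 * m + 1) := by
  intro x hx
  have e : ∀ a b : ℕ, ∀ k, k = 2 * (a + b) + 3 → indw k = ind 5 (a + b) := by
    rintro a b _ rfl; rfl
  have h1 := h (fun a => x (2 * a + 1)) fun b hb => by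
    rw [← hx (2 * b + 2) (by omega), sum_range_succ, sum_two,
      indw_even (2 * b + 2 + 2 * m) (by omega) (by omega), zero_mul, add_zero]
    refine sum_congr rfl fun a _ => ?_
    rw [indw_even (2 * b + 2 + 2 * a) (by omega) (by omega), e b a _ (by omega)]
    simp
  have h0 : x 0 = 0 := by
    have := hx 0 (by omega)
    rw [sum_range_succ', sum_two, sum_eq_zero fun a ha => by
      rw [h1 a (mem_range.1 ha), indw_even (0 + (2 * a + 1 + 1)) (by omega) (by omega)]
      simp] at this
    simpa [indw, Nat.prime_two] using this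
  have h2 := h (fun a => x (2 * a + 1 + 1)) fun b hb => by
    rw [← hx (2 * b + 1) (by omega), sum_range_succ', sum_two, h0, mul_zero, add_zero]
    refine sum_congr rfl fun a ha => ?_
    rw [h1 a (mem_range.1 ha), e b a (2 * b + 1 + (2 * a + 1 + 1)) (by omega)]
    simp
  intro j hj
  obtain ⟨a, rfl | rfl⟩ := Nat.even_or_odd' j
  · rcases a with _ | a
    · exact h0
    · exact h2 a (by omega)
  · exact h1 a (by omega)

open Filter Real in
theorem numeric : ∀ᶠ n : ℕ in atTop, ∃ y : ℕ, 3 ≤ y ∧
    (n / 2) ^ 2 < Nat.totient (∏ q ∈ oddP y, q) ∧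
    ((2 * (y * (n / 2 + 3) + 5) + 1 : ℕ) : ℝ) ≤ 3 * n * Real.log n := by
  obtain ⟨C, hC⟩ := Chebyshev.psi_sub_theta_le_mul_sqrt
  have hl : Tendsto (fun n : ℕ => Real.log n) atTop atTop :=
    tendsto_log_atTop.comp tendsto_natCast_atTop_atTop
  filter_upwards [hl.eventually_ge_atTop 30, hl.eventually_ge_atTop ((300 * (|C| + 5) + 1) ^ 2),
    eventually_ge_atTop 400] with n h1 h2 h3
  set L := Real.log n with hL
  set y := ⌈29 / 10 * L⌉₊ with hy
  have hy1 : 29 / 10 * L ≤ y := Nat.le_ceil _
  have hy2 : (y : ℝ) < 29 / 10 * L + 1 := Nat.ceil_lt_add_one (by linarith)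
  have hy3 : 3 ≤ y := by
    have : (3 : ℝ) ≤ y := by linarith
    exact_mod_cast this
  have hn : (400 : ℝ) ≤ n := by exact_mod_cast h3
  refine ⟨y, hy3, ?_, ?_⟩
  · have hy0 : (0 : ℝ) < y := by linarith
    set s := √(y : ℝ) with hs
    have hs2 : s ^ 2 = y := sq_sqrt hy0.le
    have hs1 : 300 * (|C| + 5) + 1 ≤ s := by
      refine le_sqrt_of_sq_le ?_
      linarith
    have hC0 := abs_nonneg C
    have hlog : Real.log y ≤ 2 * s := by
      rw [← hs2, Real.log_pow]
      have := Real.log_le_sub_one_of_pos (x := s) (by linarith)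
      push_cast
      linarith
    have hlog1 : Real.log (y + 1) ≤ 3 * s := by
      have h4 : Real.log (y + 1) ≤ Real.log (2 * y) := Real.log_le_log (by linarith) (by linarith)
      rw [Real.log_mul (by norm_num) hy0.ne'] at h4
      have := Real.log_two_lt_d9
      linarith
    have h5 := Chebyshev.psi_ge y
    have h6 := hC y
    rw [← hs] at h6
    have h7 : C * s ≤ |C| * s := mul_le_mul_of_nonneg_right (le_abs_self C) (by linarith)
    have h8 : y * (0.6931471803 : ℝ) ≤ y * Real.log 2 :=
      mul_le_mul_of_nonneg_left Real.log_two_gt_d9.le hy0.le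
    have h9 : (300 * (|C| + 5) + 1) * s ≤ s * s := mul_le_mul_of_nonneg_right hs1 (by linarith)
    have h10 : Real.log (y * (n : ℝ) ^ 2) < Real.log (primorial y) := by
      have := Chebyshev.theta_eq_log_primorial (y : ℝ)
      rw [Nat.floor_natCast] at this
      rw [← this, Real.log_mul hy0.ne' (by positivity), Real.log_pow]
      push_cast
      nlinarith
    have h11 := (Real.log_lt_log_iff (by positivity)
      (by exact_mod_cast primorial_pos y)).1 h10
    have h12 : y * n ^ 2 < primorial y := by exact_mod_cast h11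
    have h13 := h12.trans_le (primorial_le y (by omega))
    exact (Nat.pow_le_pow_left (Nat.div_le_self n 2) 2).trans_lt (Nat.lt_of_mul_lt_mul_left h13)
  · have h4 : 2 * (y * (n / 2 + 3) + 5) + 1 ≤ y * (n + 6) + 11 := by
      have : y * (2 * (n / 2 + 3)) ≤ y * (n + 6) := Nat.mul_le_mul_left _ (by omega)
      nlinarith
    have h5 : ((2 * (y * (n / 2 + 3) + 5) + 1 : ℕ) : ℝ) ≤ y * (n + 6) + 11 := by exact_mod_cast h4
    nlinarith

end Pool.Agent.Lib.MP_d10e50_nt
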