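import Mathlib

set_option autoImplicit false

namespace Pool.Agent.Lib.MP_d10e50_nt

open Polynomial Finset

/-- The shift operator on complex sequences. -/
noncomputable def T : Module.End ℂ (ℕ → ℂ) where
  toFun w k := w (k + 1)
  map_add' _ _ := rfl
  map_smul' _ _ := rfl

theorem T_pow (e : ℕ) (w : ℕ → ℂ) (k : ℕ) : (T ^ e) w k = w (k + e) := by
  induction e generalizing w k with
  | zero => rfl
  | succ e ih =>
    rw [pow_succ, Module.End.mul_apply, ih]
    rfl

/-- Multiplication by the character `k ↦ c ^ k`. -/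
noncomputable def D (c : ℂ) : Module.End ℂ (ℕ → ℂ) where
  toFun w k := c ^ k * w k
  map_add' _ _ := by funext k; simp [mul_add]
  map_smul' _ _ := by funext k; simp; ring

theorem aeval_mon (a : ℂ) (n : ℕ) (w : ℕ → ℂ) (k : ℕ) :
    aeval T (C a * X ^ n) w k = a * w (k + n) := by
  simp only [map_mul, aeval_C, map_pow, aeval_X, Module.End.mul_apply,
    Module.algebraMap_end_apply, Pi.smul_apply, smul_eq_mul, T_pow]

theorem D_apply (c : ℂ) (w : ℕ → ℂ) (k : ℕ) : D c w k = c ^ k * w k := rfl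

theorem aeval_D (c d : ℂ) (h : c * d = 1) (g : ℂ[X]) (w : ℕ → ℂ) :
    aeval T (g.comp (C d * X)) (D c w) = D c (aeval T g w) := by
  induction g using Polynomial.induction_on' with
  | add p q hp hq => simp only [add_comp, map_add, LinearMap.add_apply, hp, hq]
  | monomial n a =>
    funext k
    have e : (monomial n a).comp (C d * X) = C (a * d ^ n) * X ^ n := by
      rw [← C_mul_X_pow_eq_monomial]; simp [mul_pow, mul_assoc]
    rw [e, ← C_mul_X_pow_eq_monomial, aeval_mon, D_apply, D_apply, aeval_mon, pow_add]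
    have : c ^ n * d ^ n = 1 := by rw [← mul_pow, h, one_pow]
    linear_combination (a * c ^ k * w (k + n)) * this

/-- The spectrum of a sequence: common roots of all annihilating polynomials. -/
def Spec (w : ℕ → ℂ) (α : ℂ) : Prop := ∀ g : ℂ[X], aeval T g w = 0 → g.eval α = 0

theorem exists_spec (w : ℕ → ℂ) (p : ℂ[X]) (hp : p ≠ 0) (hw : aeval T p w = 0)
    (k : ℕ) (hk : p.natDegree ≤ k) (hk0 : w k ≠ 0) : ∃ α, α ≠ 0 ∧ Spec w α := by
  classical
  let I : Ideal ℂ[X] :=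
    { carrier := {g | aeval T g w = 0}
      add_mem' := fun {a b} ha hb => by
        simp only [Set.mem_ofPred_eq, map_add, LinearMap.add_apply] at *
        rw [ha, hb, add_zero]
      zero_mem' := by simp
      smul_mem' := fun c a ha => by
        simp only [Set.mem_ofPred_eq, smul_eq_mul, map_mul, Module.End.mul_apply] at *
        rw [ha, map_zero] }
  obtain ⟨μ, hμ⟩ := (IsPrincipalIdealRing.principal I).principal
  have hdvd : ∀ g, aeval T g w = 0 → μ ∣ g := fun g hg => by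
    have : g ∈ I := hg
    rw [hμ] at this
    exact Ideal.mem_span_singleton.1 this
  have hμI : aeval T μ w = 0 := by
    have : μ ∈ I := by rw [hμ]; exact Ideal.mem_span_singleton_self μ
    exact this
  have hμp := hdvd p hw
  have hμ0 : μ ≠ 0 := fun h => hp (by simpa [h] using hμp)
  by_contra hcon
  push Not at hcon
  have hr : ∀ α ∈ μ.roots, α = 0 := fun α hα => by
    by_contra h0
    apply hcon α h0
    intro g hg
    exact eval_eq_zero_of_dvd_of_eval_eq_zero (hdvd g hg) (mem_roots hμ0 |>.1 hα)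
  have h1 := (IsAlgClosed.splits μ).eq_prod_roots
  have h2 : μ.roots = Multiset.replicate μ.roots.card 0 := Multiset.eq_replicate.2 ⟨rfl, hr⟩
  rw [h2] at h1
  simp only [Multiset.map_replicate, map_zero, sub_zero, Multiset.prod_replicate] at h1
  have h3 : μ.roots.card ≤ k :=
    (card_roots' μ).trans ((natDegree_le_of_dvd hμp hp).trans hk)
  generalize μ.roots.card = e at h1 h3
  have h4 := congrFun hμI (k - e)
  rw [h1] at h4
  rw [aeval_mon, Nat.sub_add_cancel h3] at h4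
  exact mul_ne_zero (leadingCoeff_ne_zero.2 hμ0) hk0 h4

theorem spec_step (w : ℕ → ℂ) (q r : ℕ) (hq : q.Prime) (hw : ∀ t, w (r + q * t) = 0) (hr : r < q)
    (α : ℂ) (hα : Spec w α) : ∃ ζ : ℂ, orderOf ζ = q ∧ Spec w (α * ζ) := by
  classical
  obtain ⟨ζ, hζ⟩ : ∃ ζ : ℂ, IsPrimitiveRoot ζ q := ⟨_, Complex.isPrimitiveRoot_exp q hq.ne_zero⟩
  have hζ0 : ζ ≠ 0 := hζ.ne_zero hq.ne_zero
  by_contra hcon
  push Not at hcon
  have h1 : ∀ j : ℕ, ∃ g : ℂ[X], j ∈ Ico 1 q → aeval T g w = 0 ∧ g.eval (α * ζ ^ j) ≠ 0 := by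
    intro j
    by_cases hj : j ∈ Ico 1 q
    · have hj' := mem_Ico.1 hj
      have hc : j.Coprime q := (Nat.coprime_of_lt_prime (by omega) hj'.2 hq).symm
      have := hcon (ζ ^ j) (hζ.pow_of_coprime j hc).eq_orderOf.symm
      unfold Spec at this
      push Not at this
      obtain ⟨g, hg⟩ := this
      exact ⟨g, fun _ => hg⟩
    · exact ⟨0, fun h => absurd h hj⟩
  choose g hg using h1
  set G : ℂ[X] := ∏ j ∈ Ico 1 q, (g j).comp (C (ζ ^ j) * X) with hG
  have hGα : G.eval α ≠ 0 := by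
    rw [hG, eval_prod]
    refine prod_ne_zero_iff.2 fun j hj => ?_
    rw [eval_comp, eval_mul, eval_C, eval_X, mul_comm]
    exact (hg j hj).2
  apply hGα
  apply hα
  have hdec : w = -∑ j ∈ Ico 1 q, (ζ ^ j) ^ r • D (ζ ^ j)⁻¹ w := by
    funext k
    have hs : ∑ j ∈ range q, (ζ ^ j) ^ r * (((ζ ^ j)⁻¹) ^ k * w k) = 0 := by
      set x : ℂ := ζ ^ r * (ζ⁻¹) ^ k with hx
      have e : ∀ j, (ζ ^ j) ^ r * (((ζ ^ j)⁻¹) ^ k * w k) = x ^ j * w k := fun j => by
        rw [hx, mul_pow, ← inv_pow, ← pow_mul, ← pow_mul, ← pow_mul, ← pow_mul, mul_comm j r,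
          mul_comm j k, mul_assoc]
      simp only [e]
      rw [← sum_mul]
      by_cases hx1 : x = 1
      · have h2 : ζ ^ k = ζ ^ r := by
          rw [hx, inv_pow] at hx1
          field_simp at hx1
          exact hx1.symm
        have h3 : k % q = r := by
          have h4 : ζ ^ (k % q) = ζ ^ r := by
            rw [← h2]
            conv_rhs => rw [← Nat.mod_add_div k q, pow_add, pow_mul, hζ.pow_eq_one, one_pow, mul_one]
          exact hζ.pow_inj (Nat.mod_lt _ hq.pos) hr h4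
        have h5 := hw (k / q)
        rw [← h3, Nat.mod_add_div] at h5
        rw [h5, mul_zero]
      · have h2 : x ^ q = 1 := by
          rw [hx, mul_pow, ← pow_mul, ← pow_mul, mul_comm r q, mul_comm k q, pow_mul, pow_mul,
            inv_pow, hζ.pow_eq_one]
          simp
        rw [geom_sum_eq hx1, h2]
        simp
    rw [range_eq_Ico, sum_eq_sum_Ico_succ_bot hq.pos] at hs
    simp only [Pi.neg_apply, Finset.sum_apply, Pi.smul_apply, smul_eq_mul, D_apply]
    simp only [pow_zero, one_pow, inv_one, one_mul, zero_add] at hs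
    linear_combination hs
  rw [hdec, map_neg, map_sum, neg_eq_zero]
  refine sum_eq_zero fun j hj => ?_
  rw [map_smul, hG, ← prod_erase_mul _ _ hj, map_mul, Module.End.mul_apply,
    aeval_D _ _ (inv_mul_cancel₀ (pow_ne_zero j hζ0)), (hg j hj).1]
  simp

theorem spec_chain (w : ℕ → ℂ) (Q : Finset ℕ)
    (hQ : ∀ q ∈ Q, q.Prime ∧ ∃ r < q, ∀ t, w (r + q * t) = 0)
    (α : ℂ) (hα : Spec w α) : ∃ ζ : ℂ, orderOf ζ = ∏ q ∈ Q, q ∧ Spec w (α * ζ) := by
  classical
  induction Q using Finset.induction_on with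
  | empty => exact ⟨1, by simp, by simpa using hα⟩
  | insert q Q hq ih =>
    obtain ⟨ζ, h1, h2⟩ := ih fun p hp => hQ p (mem_insert_of_mem hp)
    obtain ⟨hp, r, hr, hw⟩ := hQ q (mem_insert_self _ _)
    obtain ⟨η, h3, h4⟩ := spec_step w q r hp hw hr _ h2
    refine ⟨η * ζ, ?_, by rw [mul_comm η, ← mul_assoc]; exact h4⟩
    rw [prod_insert hq, (Commute.all η ζ).orderOf_mul_eq_mul_orderOf_of_coprime, h1, h3]
    rw [h1, h3]
    refine Nat.Coprime.prod_right fun p hp' => ?_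
    exact (Nat.coprime_primes hp (hQ p (mem_insert_of_mem hp')).1).2 fun h => hq (h ▸ hp')

open IntermediateField in
theorem totient_le_sq (p : ℚ[X]) (hp : p ≠ 0) (α ζ : ℂ) (m : ℕ) (hm : 0 < m) (hα0 : α ≠ 0)
    (hζ : orderOf ζ = m) (h1 : aeval α p = 0) (h2 : aeval (α * ζ) p = 0) :
    Nat.totient m ≤ p.natDegree ^ 2 := by
  have hprim : IsPrimitiveRoot ζ m := hζ ▸ IsPrimitiveRoot.orderOf ζ
  have key : ∀ β : ℂ, aeval β p = 0 → IsIntegral ℚ β ∧ Module.finrank ℚ ℚ⟮β⟯ ≤ p.natDegree := by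
    intro β hβ
    have hi : IsIntegral ℚ β := (isAlgebraic_iff_isIntegral).1 ⟨p, hp, hβ⟩
    refine ⟨hi, ?_⟩
    rw [adjoin.finrank hi]
    exact natDegree_le_of_dvd (minpoly.dvd ℚ β hβ) hp
  obtain ⟨i1, f1⟩ := key α h1
  obtain ⟨i2, f2⟩ := key _ h2
  have := adjoin.finiteDimensional i1
  have := adjoin.finiteDimensional i2
  have hle : ℚ⟮ζ⟯ ≤ ℚ⟮α⟯ ⊔ ℚ⟮α * ζ⟯ := by
    rw [adjoin_simple_le_iff]
    have e : ζ = α⁻¹ * (α * ζ) := by field_simp
    rw [e]
    refine mul_mem (inv_mem ?_) ?_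
    · exact (le_sup_left : ℚ⟮α⟯ ≤ _) (mem_adjoin_simple_self ℚ α)
    · rw [← e]
      exact (le_sup_right : ℚ⟮α * ζ⟯ ≤ _) (mem_adjoin_simple_self ℚ (α * ζ))
  have h3 := finrank_le_of_le_right hle
  have h4 := IntermediateField.finrank_sup_le ℚ⟮α⟯ ℚ⟮α * ζ⟯
  have h5 : Module.finrank ℚ ℚ⟮ζ⟯ = Nat.totient m := by
    rw [adjoin.finrank ((hprim.isIntegral hm).tower_top), ← cyclotomic_eq_minpoly_rat hprim hm,
      natDegree_cyclotomic]
  calc Nat.totient m ≤ _ := h5 ▸ h3.trans h4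
    _ ≤ p.natDegree * p.natDegree := Nat.mul_le_mul f1 f2
    _ = _ := (sq _).symm

/-- A rational linear recurrence of order `s` with a solution that is not eventually zero and that
vanishes on a residue class modulo every prime of `Q` has `φ(∏ Q) ≤ s ^ 2`. -/
theorem spec_bound (w : ℕ → ℂ) (p : ℚ[X]) (hp : p ≠ 0)
    (hw : aeval T (p.map (algebraMap ℚ ℂ)) w = 0) (k : ℕ) (hk : p.natDegree ≤ k) (hk0 : w k ≠ 0)
    (Q : Finset ℕ) (hQ : ∀ q ∈ Q, q.Prime ∧ ∃ r < q, ∀ t, w (r + q * t) = 0) :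
    Nat.totient (∏ q ∈ Q, q) ≤ p.natDegree ^ 2 := by
  obtain ⟨α, h0, hα⟩ := exists_spec w _ (Polynomial.map_ne_zero hp) hw k
    (by rwa [natDegree_map]) hk0
  obtain ⟨ζ, h1, h2⟩ := spec_chain w Q hQ α hα
  refine totient_le_sq p hp α ζ _ (prod_pos fun q hq => (hQ q hq).1.pos) h0 h1 ?_ ?_
  · rw [← eval_map_algebraMap]; exact hα _ hw
  · rw [← eval_map_algebraMap]; exact h2 _ hw

end Pool.Agent.Lib.MP_d10e50_nt
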